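import Pool.Agent.Helper32.OD.Base

/-!
# OD: packet MIX (the mixture of conditions)
-/

namespace Pool.Agent.Helper17.OD.PkMIX

open Set Pool.Agent.Helper17.OD Pool.Agent.Helper32.OD

section

variable (F : FD) (j : O) (q : T) (A : Set T) (r : T → T)

/-- The places of the mixture. -/
def Cx (i x : O) : Prop := x < ln q i ∨ (j < i ∧ ∃ t ∈ A, x < ln (r t) i)

/-- The length of the mixture. -/
noncomputable def lq (i : O) : O := sInf {a | ¬ Cx j q A r i a}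

/-- Below some element of the antichain, in the name of the given condition. -/
def UU (i z : O) : Set T :=
  {s | ∃ t ∈ A, F.Le (Order.succ j) s t ∧ z < ln (r t) i ∧ s ∈ nm (r t) i z}

/-- The new names. -/
def NN (i z : O) : Set T :=
  {s | s ∈ F.P i ∧ ∀ s' ∈ F.P i, F.Le i s' s → ∃ s'' ∈ F.P i, F.Le i s'' s' ∧
    s'' ∈ UU F j A r i z}

/-- All names. -/
def Nq (i z : O) : Set T :=
  {s | ((¬ j < i ∨ z < ln q i) ∧ s ∈ nm q i z) ∨ (j < i ∧ ¬ z < ln q i ∧ s ∈ NN F j A r i z)}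

end

theorem Nq_old {F : FD} {j : O} {q : T} {A : Set T} {r : T → T} {i z : O}
    (h : ¬ j < i ∨ z < ln q i) : Nq F j q A r i z = nm q i z := by
  ext s
  simp only [Nq, mem_ofPred_eq]
  constructor
  · rintro (⟨-, h1⟩ | ⟨h1, h2, -⟩)
    · exact h1
    · rcases h with h | h
      · exact absurd h1 h
      · exact absurd h h2
  · exact fun h1 => Or.inl ⟨h, h1⟩

theorem Nq_new {F : FD} {j : O} {q : T} {A : Set T} {r : T → T} {i z : O}
    (h : j < i) (h' : ¬ z < ln q i) : Nq F j q A r i z = NN F j A r i z := by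
  ext s
  simp only [Nq, mem_ofPred_eq]
  constructor
  · rintro (⟨h1, -⟩ | ⟨-, -, h1⟩)
    · rcases h1 with h1 | h1
      · exact absurd h h1
      · exact absurd h1 h'
    · exact h1
  · exact fun h1 => Or.inr ⟨h, h', h1⟩

/-- The regularization of a set is regular open. -/
theorem ro_reg {P : Set T} {L : T → T → Prop} (hrefl : ∀ p, L p p)
    (htr : ∀ p q r, L r q → L q p → L r p) (U : Set T) :
    RegO P L {s | s ∈ P ∧ ∀ s' ∈ P, L s' s → ∃ s'' ∈ P, L s'' s' ∧ s'' ∈ U} := by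
  refine ⟨fun s hs => hs.1, fun r hr s hs hsr => ⟨hs, fun s' hs' h1 =>
    hr.2 s' hs' (htr _ _ _ h1 hsr)⟩, fun r hr h1 => ⟨hr, fun s' hs' h2 => ?_⟩⟩
  obtain ⟨u, hu, hus, hu2⟩ := h1 s' hs' h2
  obtain ⟨v, hv, hvu, hvU⟩ := hu2.2 u hu (hrefl u)
  exact ⟨v, hv, htr _ _ _ hvu hus, hvU⟩

theorem sd_ln1 (F : FD) (hLNS : G_LNS) {G : Set T} (hG : G ∈ F.M) {i : O} (hi : i < F.γ) :
    SD F.γ F.M F.M (fun e _ => ∃ u ∈ D (Iio F.γ), Tr.pr e.fst u ∈ G ∧ LnT u (.ord i) e.snd) := by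
  have hS := som F
  have hLn := hLNS F.γ F.M F.M hS
  apply_rules (maxDepth := 1000) [SD.exT, SD.allT, SD.isOrd, SD.llt, SD.mem, SD.eq, SD.not,
    SD.and, SD.or, SD.imp, ST.id, ST.fst, ST.snd, ST.pr, ST.nat, ST.ordc, SV.var, SV.par,
    SD.app3]

theorem sd_ln2 (F : FD) (hLNS : G_LNS) {G : Set T} (hG : G ∈ F.M) :
    SD F.γ F.M F.M (fun e _ => ∃ u ∈ D (Iio F.γ), Tr.pr e.fst u ∈ G ∧ LnT u e.snd (.ord 0)) := by
  have hS := som F
  have hLn := hLNS F.γ F.M F.M hS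
  have h0 : (0 : O) < F.γ := lt_of_le_of_lt zero_le F.g.kg
  apply_rules (maxDepth := 1000) [SD.exT, SD.allT, SD.isOrd, SD.llt, SD.mem, SD.eq, SD.not,
    SD.and, SD.or, SD.imp, ST.id, ST.fst, ST.snd, ST.pr, ST.nat, ST.ordc, SV.var, SV.par,
    SD.app3]

/-- `Cx` with tree arguments. -/
def CxT (F : FD) (j : O) (q : T) (A G : Set T) (ti tx : T) : Prop :=
  LnT q ti tx ∨ ((Tr.ord j : T).llt ti ∧ ∃ t ∈ D (Iio F.γ), t ∈ A ∧
    ∃ u ∈ D (Iio F.γ), Tr.pr t u ∈ G ∧ LnT u ti tx)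

/-- `UU` with tree arguments. -/
def UT (F : FD) (j : O) (A G : Set T) (ti tx s : T) : Prop :=
  ∃ t ∈ D (Iio F.γ), t ∈ A ∧ LeT F (.ord (Order.succ j)) s t ∧
    ∃ u ∈ D (Iio F.γ), Tr.pr t u ∈ G ∧ LnT u ti tx ∧ NmT u ti tx s

/-- `NN` with tree arguments. -/
def NT (F : FD) (j : O) (A G : Set T) (ti tx s : T) : Prop :=
  PT F ti s ∧ ∀ s' ∈ D (Iio F.γ), PT F ti s' → LeT F ti s' s → ∃ s'' ∈ D (Iio F.γ),
    PT F ti s'' ∧ LeT F ti s'' s' ∧ UT F j A G ti tx s''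

/-- `Nq` with tree arguments. -/
def NqT (F : FD) (j : O) (q : T) (A G : Set T) (ti tx s : T) : Prop :=
  ((¬ (Tr.ord j : T).llt ti ∨ LnT q ti tx) ∧ NmT q ti tx s) ∨
    ((Tr.ord j : T).llt ti ∧ ¬ LnT q ti tx ∧ NT F j A G ti tx s)

/-- The set of the mixture with tree arguments. -/
def ZT (F : FD) (j : O) (q : T) (A G : Set T) (e : T) : Prop :=
  ∃ ti ∈ D (Iio F.γ), ∃ tx ∈ D (Iio F.γ), ti.IsOrd ∧ ti.llt (.ord F.κ) ∧ CxT F j q A G ti tx ∧
    (e = .pr ti (.pr (.nat 0) tx) ∨ ∃ s ∈ D (Iio F.γ), NqT F j q A G ti tx s ∧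
      e = .pr ti (.pr (.nat 1) (.pr tx s)))

section

variable {F : FD} {j : O} {q : T} {A G : Set T}

theorem sd_Cx (hLn : SD F.γ F.M F.M fun e _ => LnT e.fst e.snd.fst e.snd.snd) (hj : j < F.γ)
    (hq : ST F.γ (fun _ => q)) (hA : A ∈ F.M) (hG : G ∈ F.M) :
    SD F.γ F.M F.M (fun e _ => CxT F j q A G e.fst e.snd) := by
  have hS := som F
  unfold CxT
  apply_rules (maxDepth := 1000) [SD.exT, SD.allT, SD.isOrd, SD.llt, SD.mem, SD.eq, SD.not,
    SD.and, SD.or, SD.imp, ST.id, ST.fst, ST.snd, ST.pr, ST.nat, ST.ordc, SV.var, SV.par,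
    SD.app3]

attribute [local irreducible] CxT Pool.Agent.Helper32.OD.NmT Pool.Agent.Helper32.OD.LeT

theorem sd_U (hLn : SD F.γ F.M F.M fun e _ => LnT e.fst e.snd.fst e.snd.snd)
    (hLe : SD F.γ F.M F.M fun e _ => LeT F e.fst e.snd.fst e.snd.snd)
    (hNm : SD F.γ F.M F.M fun e _ => NmT e.fst e.snd.fst e.snd.snd.fst e.snd.snd.snd)
    (hj : Order.succ j < F.γ) (hA : A ∈ F.M) (hG : G ∈ F.M) :
    SD F.γ F.M F.M (fun e _ => UT F j A G e.fst e.snd.fst e.snd.snd) := by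
  have hS := som F
  unfold UT
  apply_rules (maxDepth := 1000) [SD.exT, SD.allT, SD.isOrd, SD.llt, SD.mem, SD.eq, SD.not,
    SD.and, SD.or, SD.imp, ST.id, ST.fst, ST.snd, ST.pr, ST.nat, ST.ordc, SV.var, SV.par,
    SD.app3 (R := LnT) hLn, SD.app3 (R := LeT F) hLe, SD.app4 (R := NmT) hNm]

attribute [local irreducible] UT

theorem sd_N (hP : SD F.γ F.M F.M fun e _ => PT F e.fst e.snd)
    (hLe : SD F.γ F.M F.M fun e _ => LeT F e.fst e.snd.fst e.snd.snd)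
    (hU : SD F.γ F.M F.M (fun e _ => UT F j A G e.fst e.snd.fst e.snd.snd)) :
    SD F.γ F.M F.M (fun e _ => NT F j A G e.fst e.snd.fst e.snd.snd) := by
  have hS := som F
  unfold NT
  apply_rules (maxDepth := 1000) [SD.exT, SD.allT, SD.isOrd, SD.llt, SD.mem, SD.eq, SD.not,
    SD.and, SD.or, SD.imp, ST.id, ST.fst, ST.snd, ST.pr, ST.nat, ST.ordc, SV.var, SV.par,
    SD.app2 (R := PT F) hP, SD.app3 (R := LeT F) hLe, SD.app3 (R := UT F j A G) hU]

attribute [local irreducible] NT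

theorem sd_Nq (hLn : SD F.γ F.M F.M fun e _ => LnT e.fst e.snd.fst e.snd.snd)
    (hNm : SD F.γ F.M F.M fun e _ => NmT e.fst e.snd.fst e.snd.snd.fst e.snd.snd.snd)
    (hN : SD F.γ F.M F.M (fun e _ => NT F j A G e.fst e.snd.fst e.snd.snd))
    (hj : j < F.γ) (hq : ST F.γ (fun _ => q)) :
    SD F.γ F.M F.M (fun e _ => NqT F j q A G e.fst e.snd.fst e.snd.snd) := by
  have hS := som F
  unfold NqT
  apply_rules (maxDepth := 1000) [SD.exT, SD.allT, SD.isOrd, SD.llt, SD.mem, SD.eq, SD.not,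
    SD.and, SD.or, SD.imp, ST.id, ST.fst, ST.snd, ST.pr, ST.nat, ST.ordc, SV.var, SV.par,
    SD.app3 (R := LnT) hLn, SD.app4 (R := NmT) hNm, SD.app3 (R := NT F j A G) hN]

attribute [local irreducible] NqT

theorem sd_Z (hC : SD F.γ F.M F.M (fun e _ => CxT F j q A G e.fst e.snd))
    (hNq : SD F.γ F.M F.M (fun e _ => NqT F j q A G e.fst e.snd.fst e.snd.snd))
    (hκ : F.κ < F.γ) :
    SD F.γ F.M F.M (fun e _ => ZT F j q A G e) := by
  have hS := som F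
  unfold ZT
  apply_rules (maxDepth := 1000) [SD.exT, SD.allT, SD.isOrd, SD.llt, SD.mem, SD.eq, SD.not,
    SD.and, SD.or, SD.imp, ST.id, ST.fst, ST.snd, ST.pr, ST.nat, ST.ordc, SV.var, SV.par,
    SD.app2 (R := CxT F j q A G) hC, SD.app3 (R := NqT F j q A G) hNq]

end

/-- The labelling of the places by old/new is in the ground model. -/
theorem sd_lab {F : FD} {q : T} {f : O → O} {i : O}
    (hLn : SD F.γ F.M F.M fun e _ => LnT e.fst e.snd.fst e.snd.snd) (hf : gro F.w f ∈ F.M)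
    (hq : ST F.γ (fun _ => q)) (hwγ : F.w < F.γ) (hκγ : F.κ < F.γ) (hi : i < F.γ)
    (h0w : (0 : O) < F.w) (h1w : (1 : O) < F.w) (hfκ : ∀ x < F.w, f x < F.κ) :
    gro F.w (fun x => if f x < ln q i then 0 else 1) ∈ F.M := by
  have hS := som F
  have h0 : (0 : O) < F.γ := h0w.trans hwγ
  have h1 : (1 : O) < F.γ := h1w.trans hwγ
  have hSD : SD F.γ F.M F.M (fun e _ => ∃ x ∈ D (Iio F.γ), ∃ u ∈ D (Iio F.γ), ∃ y ∈ D (Iio F.γ),
      e = .pr x y ∧ Tr.pr x u ∈ gro F.w f ∧ ((LnT q (.ord i) u ∧ y = .ord 0) ∨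
      (¬ LnT q (.ord i) u ∧ y = .ord 1))) := by
    apply_rules (maxDepth := 1000) [SD.exT, SD.allT, SD.isOrd, SD.llt, SD.mem, SD.eq, SD.not,
      SD.and, SD.or, SD.imp, ST.id, ST.fst, ST.snd, ST.pr, ST.nat, ST.ordc, SV.var, SV.par,
      SD.app3 (R := LnT) hLn]
  have hLnT : ∀ (p : T) (i z : O), LnT p (.ord i) (.ord z) ↔ z < ln p i := by
    intro p i z
    constructor
    · rintro ⟨i', z', h1, h2, h3⟩
      rw [Tr.ord.injEq] at h1 h2
      rw [h1, h2]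
      exact h3
    · exact fun h => ⟨i, z, rfl, rfl, h⟩
  refine SOM.of_SD (k := F.γ) (S := F.M) (S' := F.M) (d := F.w) hwγ ?_ (hSD.congr ?_)
  · rintro e ⟨x, hx, rfl⟩
    refine pr_mem.2 ⟨ord_mem.2 hx, ord_mem.2 ?_⟩
    rw [mem_Iio]
    dsimp only
    split_ifs
    · exact h0w
    · exact h1w
  · intro e _ _ _
    constructor
    · rintro ⟨x, _, u, _, y, _, rfl, ⟨x', hx', h2⟩, h3⟩
      rw [Tr.pr.injEq] at h2
      obtain ⟨rfl, rfl⟩ := h2
      refine ⟨x', hx', ?_⟩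
      rw [hLnT] at h3
      rcases h3 with ⟨h3, rfl⟩ | ⟨h3, rfl⟩
      · dsimp only
        rw [if_pos h3]
      · dsimp only
        rw [if_neg h3]
    · rintro ⟨x, hx, rfl⟩
      refine ⟨.ord x, ord_mem.2 (hx.trans hwγ), .ord (f x), ord_mem.2 ((hfκ x hx).trans hκγ), _,
        ?_, rfl, ⟨x, hx, rfl⟩, ?_⟩
      · refine ord_mem.2 ?_
        rw [mem_Iio]
        dsimp only
        split_ifs
        · exact h0
        · exact h1
      · rw [hLnT]
        dsimp only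
        by_cases h3 : f x < ln q i
        · exact Or.inl ⟨h3, by rw [if_pos h3]⟩
        · exact Or.inr ⟨h3, by rw [if_neg h3]⟩

/-- Composition of graphs. -/
theorem gro_comp (F : FD) {w : O} {f g : O → O} (hwγ : w < F.γ) (hg : gro w g ∈ F.M)
    (hf : gro w f ∈ F.M) (hg1 : ∀ x < w, g x < w) (hf1 : ∀ x < w, f x < F.κ) :
    gro w (fun x => f (g x)) ∈ F.M := by
  have hS := som F
  have hκγ := F.g.kg
  have hSD : SD F.γ F.M F.M (fun e _ => ∃ x ∈ D (Iio F.γ), ∃ u ∈ D (Iio F.γ), ∃ y ∈ D (Iio F.γ),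
      e = .pr x y ∧ Tr.pr x u ∈ gro w g ∧ Tr.pr u y ∈ gro w f) := by
    apply_rules (maxDepth := 1000) [SD.exT, SD.allT, SD.isOrd, SD.llt, SD.mem, SD.eq, SD.not,
      SD.and, SD.or, SD.imp, ST.id, ST.fst, ST.snd, ST.pr, ST.nat, ST.ordc, SV.var, SV.par]
  refine SOM.of_SD (k := F.γ) (S := F.M) (S' := F.M) (d := max w F.κ) (max_lt hwγ hκγ) ?_
    (hSD.congr ?_)
  · rintro e ⟨x, hx, rfl⟩
    exact pr_mem.2 ⟨ord_mem.2 (lt_of_lt_of_le hx (le_max_left _ _)),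
      ord_mem.2 (lt_of_lt_of_le (hf1 _ (hg1 x hx)) (le_max_right _ _))⟩
  · intro e _ _ _
    constructor
    · rintro ⟨x, _, u, _, y, _, rfl, ⟨x', hx', h2⟩, ⟨x'', hx'', h3⟩⟩
      rw [Tr.pr.injEq] at h2 h3
      obtain ⟨rfl, rfl⟩ := h2
      obtain ⟨h4, rfl⟩ := h3
      rw [Tr.ord.injEq] at h4
      subst h4
      exact ⟨x', hx', rfl⟩
    · rintro ⟨x, hx, rfl⟩
      exact ⟨.ord x, ord_mem.2 (hx.trans hwγ), .ord (g x), ord_mem.2 ((hg1 x hx).trans hwγ),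
        .ord (f (g x)), ord_mem.2 ((hf1 _ (hg1 x hx)).trans hκγ), rfl, ⟨x, hx, rfl⟩,
        ⟨g x, hg1 x hx, rfl⟩⟩

theorem thm (hBLD : G_BLD) (hGRD : G_GRD) (hAMG : G_AMG) (hRES : G_RES) (hEQV : G_EQV)
    (hPUN : G_PUN) (hPRO : G_PRO) (hPIM : G_PIM) (hPBD : G_PBD) (hLNS : G_LNS) (hSPL : G_SPL)
    (hDEC : G_DEC) : G_MIX := by
  classical
  intro F j x hj hx q hq A hA hAP hanti hAg r hr hrA
  have hS := som F
  have hκγ : F.κ < F.γ := F.g.kg
  set J := Order.succ j with hJ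
  have hJκ : J < F.κ := F.g.klim.succ_lt hj
  obtain ⟨hP1, hP2⟩ := hPUN F
  obtain ⟨hrefl, htr, hdn, -, -⟩ := hPRO F
  obtain ⟨hE1, -, -⟩ := hEQV F
  obtain ⟨hB1, hB2, hB3, hB4, hB5, hB6, -, -⟩ := hPBD F
  obtain ⟨hR1, -, -⟩ := hRES F
  obtain ⟨hG1, hG2, -, -, -⟩ := hGRD F j x hj
  -- regular openness and thinness of the conditions
  have hro : ∀ p ∈ F.P F.κ, ∀ i < F.κ, ∀ z < ln p i, RegO (F.P i) (F.Le i) (nm p i z) :=
    fun p hp i hi z hz => ((hP2 _ _).1 hp).ro i hi hi z hz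
  have hthin : ∀ p ∈ F.P F.κ, ∀ i < F.κ, Thin F.M F.w (F.P i) (nm p i) (ln p i) :=
    fun p hp i hi => ((hP2 _ _).1 hp).thin i hi hi
  have hlen : ∀ p ∈ F.P F.κ, ∀ i < F.κ, ln p i < F.η i :=
    fun p hp i hi => ((hP2 _ _).1 hp).len i hi hi
  have hPκ : ∀ i < F.κ, F.P i ⊆ F.P F.κ := fun i hi => hB3 i F.κ hi.le
  -- compatible elements
  have hcomp : ∀ i < F.κ, j < i → ∀ s ∈ F.P i, ∀ t ∈ A, ∀ t' ∈ A, F.Le J s t → F.Le J s t' →
      t = t' := by
    intro i hi hji s hs t ht t' ht' h1 h2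
    have hsκ := hPκ i hi hs
    obtain ⟨k1, -, -, -, -, k6, -, -⟩ := hR1 s hsκ J hJκ.le
    exact hanti t ht t' ht' ⟨res s J, k1, htr _ _ _ _ k6 h1, htr _ _ _ _ k6 h2⟩
  have hJi : ∀ {i : O}, j < i → J ≤ i := fun h => Order.succ_le_of_lt h
  -- the main equivalence
  have hstar : ∀ i < F.κ, j < i → ∀ s ∈ F.P i, ∀ t ∈ A, F.Le J s t → ∀ z,
      (s ∈ NN F j A r i z ↔ z < ln (r t) i ∧ s ∈ nm (r t) i z) := by
    intro i hi hji s hs t ht hst z
    constructor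
    · intro h1
      have h2 : ∀ s' ∈ F.P i, F.Le i s' s → ∃ s'' ∈ F.P i, F.Le i s'' s' ∧
          z < ln (r t) i ∧ s'' ∈ nm (r t) i z := by
        intro s' hs' h3
        obtain ⟨s'', hs'', h4, t2, ht2, h5, h6, h7⟩ := h1.2 s' hs' h3
        have h8 : F.Le J s'' t := htr _ _ _ _
          (htr _ _ _ _ (hdn _ _ _ _ (hJi hji) h4) (hdn _ _ _ _ (hJi hji) h3)) hst
        have h9 := hcomp i hi hji s'' hs'' t2 ht2 t ht h5 h8
        subst h9
        exact ⟨s'', hs'', h4, h6, h7⟩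
      obtain ⟨s0, -, -, h3, -⟩ := h2 s hs (hrefl _ _)
      refine ⟨h3, (hro (r t) (hrA t ht).1 i hi z h3).2.2 s hs fun s' hs' h4 => ?_⟩
      obtain ⟨s'', h5, h6, -, h7⟩ := h2 s' hs' h4
      exact ⟨s'', h5, h6, h7⟩
    · rintro ⟨h1, h2⟩
      refine ⟨hs, fun s' hs' h3 => ⟨s', hs', hrefl _ _, t, ht, ?_, h1, ?_⟩⟩
      · exact htr _ _ _ _ (hdn _ _ _ _ (hJi hji) h3) hst
      · exact (hro (r t) (hrA t ht).1 i hi z h1).2.1 s h2 s' hs' h3
  -- bounds
  obtain ⟨d0, hd0, hAd0⟩ := hB1 J hJκ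
  have hAd : A ⊆ D (Iio d0) := hAP.trans hAd0
  have hηκ : ∀ i < F.κ, F.η i < F.κ := F.e.lt
  have hgrr : ∀ t ∈ A, ∀ u, Tr.pr t u ∈ gr A r ↔ u = r t := by
    intro t ht u
    constructor
    · rintro ⟨t', _, h2⟩
      rw [Tr.pr.injEq] at h2
      rw [h2.2, h2.1]
    · rintro rfl
      exact ⟨t, ht, rfl⟩
  have hrD : ∀ t ∈ A, r t ∈ D (Iio F.γ) := fun t ht =>
    D_mono (Iio_subset_Iio hκγ.le) (hB2 F.κ (hrA t ht).1)
  have hLn := hLNS F.γ F.M F.M hS
  have hLnT : ∀ (p : T) (i z : O), LnT p (.ord i) (.ord z) ↔ z < ln p i := by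
    intro p i z
    constructor
    · rintro ⟨i', z', h1, h2, h3⟩
      rw [Tr.ord.injEq] at h1 h2
      rw [h1, h2]
      exact h3
    · exact fun h => ⟨i, z, rfl, rfl, h⟩
  have hlenb : ∀ i < F.κ, j < i → ∃ b < F.η i, ∀ t ∈ A, ∀ a, a < ln (r t) i → a < b := by
    intro i hi hji
    have hηJ : F.η J ≤ F.η i := by
      rcases (hJi hji).eq_or_lt with h | h
      · rw [h]
      · exact (F.e.inc i hi J h).le
    have hRR := sd_ln1 F hLNS hr (hi.trans hκγ)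
    obtain ⟨b, hb1, hb2⟩ := reg_bnd F (F.e.reg i hi) (hηκ i hi).le hA (lt_of_lt_of_le hd0 hηJ) hAd
      (fun t a => ∃ u ∈ D (Iio F.γ), Tr.pr t u ∈ gr A r ∧ LnT u (.ord i) a) hRR
      (fun t ht => ⟨ln (r t) i, hlen (r t) (hrA t ht).1 i hi, fun a ha => by
        obtain ⟨u, _, h1, h2⟩ := ha
        rw [(hgrr t ht u).1 h1] at h2
        exact (hLnT _ _ _).1 h2⟩)
    exact ⟨b, hb1, fun t ht a ha => hb2 t ht a ⟨r t, hrD t ht, (hgrr t ht _).2 rfl,
      (hLnT _ _ _).2 ha⟩⟩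
  have hsup : ∃ b < F.κ, ∀ t ∈ A, ∀ i, 0 < ln (r t) i → i < b := by
    have hRR := sd_ln2 F hLNS hr
    obtain ⟨b, hb1, hb2⟩ := reg_bnd F F.g.m4k le_rfl hA (hd0.trans (hηκ J hJκ)) hAd
      (fun t a => ∃ u ∈ D (Iio F.γ), Tr.pr t u ∈ gr A r ∧ LnT u a (.ord 0)) hRR
      (fun t ht => by
        obtain ⟨-, d, hd, h1⟩ := hB4 F.κ (r t) (hrA t ht).1
        refine ⟨d, hd, fun a ha => ?_⟩
        obtain ⟨u, _, h2, h3⟩ := ha
        rw [(hgrr t ht u).1 h2, hLnT] at h3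
        by_contra h4
        rw [(h1 a (not_lt.1 h4)).1] at h3
        exact absurd h3 (lt_irrefl _))
    exact ⟨b, hb1, fun t ht a ha => hb2 t ht a ⟨r t, hrD t ht, (hgrr t ht _).2 rfl,
      (hLnT _ _ _).2 ha⟩⟩
  -- the length
  have hCdc : ∀ i a b, a ≤ b → Cx j q A r i b → Cx j q A r i a := by
    rintro i a b hab (h | ⟨h1, t, ht, h2⟩)
    · exact Or.inl (lt_of_le_of_lt hab h)
    · exact Or.inr ⟨h1, t, ht, lt_of_le_of_lt hab h2⟩
  have hCb : ∀ i < F.κ, ∃ b < F.η i, ∀ a, Cx j q A r i a → a < b := by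
    intro i hi
    by_cases hji : j < i
    · obtain ⟨b, hb1, hb2⟩ := hlenb i hi hji
      refine ⟨max (ln q i) b, max_lt (hlen q hq i hi) hb1, fun a ha => ?_⟩
      rcases ha with h | ⟨-, t, ht, h2⟩
      · exact lt_of_lt_of_le h (le_max_left _ _)
      · exact lt_of_lt_of_le (hb2 t ht a h2) (le_max_right _ _)
    · refine ⟨ln q i, hlen q hq i hi, fun a ha => ?_⟩
      rcases ha with h | ⟨h, -⟩
      · exact h
      · exact absurd h hji
  have hl : ∀ i < F.κ, ∀ a, a < lq j q A r i ↔ Cx j q A r i a := by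
    intro i hi a
    obtain ⟨b, -, hb⟩ := hCb i hi
    exact lt_sInf_iff _ (hCdc i) ⟨b, fun h => lt_irrefl _ (hb b h)⟩ a
  have hlη : ∀ i < F.κ, lq j q A r i < F.η i := by
    intro i hi
    obtain ⟨b, hb1, hb⟩ := hCb i hi
    refine lt_of_le_of_lt ?_ hb1
    by_contra hc
    exact lt_irrefl _ (hb b ((hl i hi b).1 (not_le.1 hc)))
  have hlold : ∀ i < F.κ, ¬ j < i → lq j q A r i = ln q i := by
    intro i hi hji
    apply le_antisymm
    · by_contra hc
      rcases (hl i hi _).1 (not_le.1 hc) with h | ⟨h, -⟩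
      · exact lt_irrefl _ h
      · exact hji h
    · by_contra hc
      exact lt_irrefl _ ((hl i hi _).2 (Or.inl (not_le.1 hc)))
  have hlge : ∀ i < F.κ, ln q i ≤ lq j q A r i := by
    intro i hi
    by_contra hc
    exact lt_irrefl _ ((hl i hi _).2 (Or.inl (not_le.1 hc)))
  -- the set of the mixture is in the ground model
  have hZ : {z : T | ∃ i < F.κ, i < F.κ ∧ ∃ x < lq j q A r i,
      z = .pr (.ord i) (.pr (.nat 0) (.ord x)) ∨
      ∃ s ∈ Nq F j q A r i x, z = .pr (.ord i) (.pr (.nat 1) (.pr (.ord x) s))} ∈ F.M := by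
    have hqγ : q ∈ D (Iio F.γ) := D_mono (Iio_subset_Iio hκγ.le) (hB2 F.κ hq)
    have hq' : ST F.γ (fun _ => q) := ST.const hqγ
    have hjγ : j < F.γ := hj.trans hκγ
    have hJγ : J < F.γ := hJκ.trans hκγ
    have hPT : SD F.γ F.M F.M (fun e _ => PT F e.fst e.snd) := (hPIM F).1
    have hLeT : SD F.γ F.M F.M (fun e _ => LeT F e.fst e.snd.fst e.snd.snd) := (hPIM F).2.1
    have hDecT : SD F.γ F.M F.M (fun e _ => DecT e.fst e.snd) := (hDEC F.γ F.M F.M hS).1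
    have hNmT : SD F.γ F.M F.M
        (fun e _ => NmT e.fst e.snd.fst e.snd.snd.fst e.snd.snd.snd) := by
      unfold NmT
      apply_rules (maxDepth := 1000) [ST.id, ST.fst, ST.snd, ST.pr, ST.nat, SD.app2]
    have hZs := sd_Z (sd_Cx hLn hjγ hq' hA hr) (sd_Nq hLn hNmT (sd_N hPT hLeT
      (sd_U hLn hLeT hNmT hJγ hA hr)) hjγ hq') hκγ
    have hPT' : ∀ i < F.κ, ∀ s, PT F (.ord i) s ↔ s ∈ F.P i := by
      intro i hi s
      constructor
      · rintro ⟨i', -, h1, h2⟩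
        rw [Tr.ord.injEq] at h1
        rw [h1]
        exact h2
      · exact fun h => ⟨i, hi.le, rfl, h⟩
    have hLeT' : ∀ i < F.κ, ∀ s ∈ D (Iio F.κ), ∀ t ∈ D (Iio F.κ),
        (LeT F (.ord i) s t ↔ F.Le i s t) := by
      intro i hi s hs t ht
      constructor
      · rintro ⟨i', -, h1, -, -, h2⟩
        rw [Tr.ord.injEq] at h1
        rw [h1]
        exact h2
      · exact fun h => ⟨i, hi.le, rfl, hs, ht, h⟩
    have hDκγ : D (Iio F.κ) ⊆ D (Iio F.γ) := D_mono (Iio_subset_Iio hκγ.le)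
    have hPD : ∀ i, F.P i ⊆ D (Iio F.κ) := hB2
    have hUT : ∀ i < F.κ, ∀ z, ∀ s ∈ D (Iio F.κ),
        (UT F j A (gr A r) (.ord i) (.ord z) s ↔ s ∈ UU F j A r i z) := by
      intro i hi z s hs
      constructor
      · rintro ⟨t, _, htA, h1, u, _, h2, h3, h4⟩
        rw [hgrr t htA u] at h2
        rw [h2] at h3 h4
        exact ⟨t, htA, (hLeT' J hJκ s hs t (hPD _ (hAP htA))).1 h1, (hLnT _ _ _).1 h3, h4⟩
      · rintro ⟨t, htA, h1, h2, h3⟩
        exact ⟨t, hDκγ (hPD _ (hAP htA)), htA, (hLeT' J hJκ s hs t (hPD _ (hAP htA))).2 h1,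
          r t, hrD t htA, (hgrr t htA _).2 rfl, (hLnT _ _ _).2 h2, h3⟩
    have hNT : ∀ i < F.κ, ∀ z, ∀ s,
        (NT F j A (gr A r) (.ord i) (.ord z) s ↔ s ∈ NN F j A r i z) := by
      intro i hi z s
      constructor
      · rintro ⟨h1, h2⟩
        rw [hPT' i hi] at h1
        refine ⟨h1, fun s' hs' h3 => ?_⟩
        obtain ⟨s'', _, h4, h5, h6⟩ := h2 s' (hDκγ (hPD i hs')) ((hPT' i hi _).2 hs')
          ((hLeT' i hi _ (hPD i hs') _ (hPD i h1)).2 h3)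
        rw [hPT' i hi] at h4
        exact ⟨s'', h4, (hLeT' i hi _ (hPD i h4) _ (hPD i hs')).1 h5,
          (hUT i hi z s'' (hPD i h4)).1 h6⟩
      · rintro ⟨h1, h2⟩
        refine ⟨(hPT' i hi _).2 h1, fun s' _ hs' h3 => ?_⟩
        rw [hPT' i hi] at hs'
        obtain ⟨s'', h4, h5, h6⟩ := h2 s' hs' ((hLeT' i hi _ (hPD i hs') _ (hPD i h1)).1 h3)
        exact ⟨s'', hDκγ (hPD i h4), (hPT' i hi _).2 h4,
          (hLeT' i hi _ (hPD i h4) _ (hPD i hs')).2 h5, (hUT i hi z s'' (hPD i h4)).2 h6⟩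
    have hllt : ∀ a b : O, (Tr.ord a : T).llt (.ord b) ↔ a < b := fun a b => Iff.rfl
    have hNqT : ∀ i < F.κ, ∀ z, ∀ s,
        (NqT F j q A (gr A r) (.ord i) (.ord z) s ↔ s ∈ Nq F j q A r i z) := by
      intro i hi z s
      unfold NqT
      rw [hNT i hi z s, hLnT, hllt]
      rfl
    have hCxT : ∀ i z, (CxT F j q A (gr A r) (.ord i) (.ord z) ↔ Cx j q A r i z) := by
      intro i z
      constructor
      · rintro (h | ⟨h1, t, _, htA, u, _, h2, h3⟩)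
        · exact Or.inl ((hLnT _ _ _).1 h)
        · rw [hgrr t htA u] at h2
          rw [h2] at h3
          exact Or.inr ⟨h1, t, htA, (hLnT _ _ _).1 h3⟩
      · rintro (h | ⟨h1, t, htA, h2⟩)
        · exact Or.inl ((hLnT _ _ _).2 h)
        · exact Or.inr ⟨h1, t, hDκγ (hPD _ (hAP htA)), htA, r t, hrD t htA,
            (hgrr t htA _).2 rfl, (hLnT _ _ _).2 h2⟩
    have hCxo : ∀ ti tx, CxT F j q A (gr A r) ti tx → ∃ z, tx = .ord z := by
      rintro ti tx (⟨_, z, _, h, _⟩ | ⟨_, t, _, _, u, _, _, _, z, _, h, _⟩)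
      · exact ⟨z, h⟩
      · exact ⟨z, h⟩
    have hNqP : ∀ i < F.κ, ∀ z, z < lq j q A r i → Nq F j q A r i z ⊆ F.P i := by
      rintro i hi z hz s (⟨h1, h2⟩ | ⟨h1, h2, h3⟩)
      · have h4 : z < ln q i := by
          rcases h1 with h1 | h1
          · rw [hlold i hi h1] at hz
            exact hz
          · exact h1
        exact (hro q hq i hi z h4).1 h2
      · exact h3.1
    refine SOM.of_SD (k := F.γ) (S := F.M) (S' := F.M) (d := F.κ) hκγ ?_ (hZs.congr ?_)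
    · rintro e ⟨i, hi, -, z, hz, h⟩
      have hz' : z < F.κ := (hz.trans (hlη i hi)).trans (hηκ i hi)
      rcases h with rfl | ⟨s, hs, rfl⟩
      · exact pr_mem.2 ⟨ord_mem.2 hi, pr_mem.2 ⟨nat_mem _ _, ord_mem.2 hz'⟩⟩
      · exact pr_mem.2 ⟨ord_mem.2 hi, pr_mem.2 ⟨nat_mem _ _, pr_mem.2 ⟨ord_mem.2 hz',
          hPD i (hNqP i hi z hz hs)⟩⟩⟩
    · intro e _ _ _
      constructor
      · rintro ⟨ti, _, tx, _, hti, h1, h2, h3⟩
        obtain ⟨i, rfl⟩ := ord_of_isOrd hti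
        obtain ⟨z, rfl⟩ := hCxo _ _ h2
        have hi : i < F.κ := h1
        rw [hCxT] at h2
        refine ⟨i, hi, hi, z, (hl i hi z).2 h2, ?_⟩
        rcases h3 with h3 | ⟨s, _, h4, h5⟩
        · exact Or.inl h3
        · exact Or.inr ⟨s, (hNqT i hi z s).1 h4, h5⟩
      · rintro ⟨i, hi, -, z, hz, h⟩
        have hz' : z < F.κ := (hz.trans (hlη i hi)).trans (hηκ i hi)
        refine ⟨.ord i, ord_mem.2 (hi.trans hκγ), .ord z, ord_mem.2 (hz'.trans hκγ), trivial,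
          hi, (hCxT _ _).2 ((hl i hi z).1 hz), ?_⟩
        rcases h with h | ⟨s, hs, h⟩
        · exact Or.inl h
        · exact Or.inr ⟨s, hDκγ (hPD i (hNqP i hi z hz hs)), (hNqT i hi z s).2 hs, h⟩
  have hNNreg : ∀ i < F.κ, ∀ z, RegO (F.P i) (F.Le i) (NN F j A r i z) := fun i _ z =>
    ro_reg (hrefl i) (fun p q r => htr i p q r) (UU F j A r i z)
  have h0w : (0 : O) < F.w := lt_of_le_of_lt zero_le F.g.omw
  have hwγ : F.w < F.γ := F.g.wk.trans hκγ
  have hthinN : ∀ i < F.κ, Thin F.M F.w (F.P i) (Nq F j q A r i) (lq j q A r i) := by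
    intro i hi
    rintro ⟨f, s, hf1, hf2, hsP, hf3⟩
    by_cases hji : j < i
    · have hfκ : ∀ x < F.w, f x < F.κ := fun x hx =>
        ((hf3 x hx).1.trans (hlη i hi)).trans (hηκ i hi)
      set h : O → O := fun x => if f x < ln q i then 0 else 1 with hh
      have h1w : (1 : O) < F.w := by
        have := F.g.wlim.succ_lt h0w
        simpa using this
      have hh2 : ∀ x < F.w, h x < 2 := by
        intro x _
        rw [hh]
        dsimp only
        split_ifs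
        · exact two_pos
        · exact one_lt_two
      have h2w : (2 : O) < F.w := by
        have := F.g.wlim.succ_lt h1w
        rwa [← one_add_one_eq_two, ← Order.succ_eq_add_one]
      have hhM : gro F.w h ∈ F.M := by
        have hqγ : q ∈ D (Iio F.γ) := D_mono (Iio_subset_Iio hκγ.le) (hB2 F.κ hq)
        have hq' : ST F.γ (fun _ => q) := ST.const hqγ
        exact sd_lab hLn hf2 hq' hwγ hκγ (hi.trans hκγ) h0w h1w hfκ
      obtain ⟨g, c, hg1, hg2, hg3⟩ := (hSPL F h hhM).1 ⟨2, h2w, hh2⟩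
      have hfg1 : StrictMonoOn (fun x => f (g x)) (Iio F.w) := fun x hx y hy hxy =>
        hf1 (hg2 x hx).1 (hg2 y hy).1 (hg1 hx hy hxy)
      have hfgM : gro F.w (fun x => f (g x)) ∈ F.M :=
        gro_comp F hwγ hg3 hf2 (fun x hx => (hg2 x hx).1) hfκ
      by_cases hc : c = 0
      · refine hthin q hq i hi ⟨fun x => f (g x), s, hfg1, hfgM, hsP, fun x hx => ?_⟩
        have h1 := (hg2 x hx).2
        rw [hc, hh] at h1
        dsimp only at h1
        have h2 : f (g x) < ln q i := by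
          by_contra h3
          rw [if_neg h3] at h1
          exact one_ne_zero h1
        have h3 := (hf3 _ (hg2 x hx).1).2
        rw [Nq_old (Or.inr h2)] at h3
        exact ⟨h2, h3⟩
      · have h4 : ∀ x < F.w, s ∈ NN F j A r i (f (g x)) := by
          intro x hx
          have h1 := (hg2 x hx).2
          rw [hh] at h1
          dsimp only at h1
          have h2 : ¬ f (g x) < ln q i := by
            intro h3
            rw [if_pos h3] at h1
            exact hc h1.symm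
          have h3 := (hf3 _ (hg2 x hx).1).2
          rwa [Nq_new hji h2] at h3
        obtain ⟨s', hs', h5, t, htA, h6, -, -⟩ := (h4 0 h0w).2 s hsP (hrefl _ _)
        refine hthin (r t) (hrA t htA).1 i hi ⟨fun x => f (g x), s', hfg1, hfgM, hs',
          fun x hx => ?_⟩
        exact (hstar i hi hji s' hs' t htA h6 _).1 ((hNNreg i hi _).2.1 s (h4 x hx) s' hs' h5)
    · refine hthin q hq i hi ⟨f, s, hf1, hf2, hsP, fun x hx => ?_⟩
      obtain ⟨h1, h2⟩ := hf3 x hx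
      rw [hlold i hi hji] at h1
      rw [Nq_old (Or.inl hji)] at h2
      exact ⟨h1, h2⟩
  obtain ⟨q', hq'P, hq'⟩ := hBLD F F.κ le_rfl (lq j q A r) (Nq F j q A r) hZ (by
      obtain ⟨-, d1, hd1, h1⟩ := hB4 F.κ q hq
      obtain ⟨d2, hd2, h2⟩ := hsup
      refine ⟨max d1 d2, max_lt hd1 hd2, fun i hi hdi => ?_⟩
      by_contra hc
      rcases (hl i hi 0).1 (pos_iff_ne_zero.2 hc) with h3 | ⟨-, t, ht, h3⟩
      · rw [(h1 i ((le_max_left _ _).trans hdi)).1] at h3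
        exact lt_irrefl _ h3
      · exact absurd (h2 t ht i h3) (not_lt.2 ((le_max_right _ _).trans hdi)))
    (fun i hi _ => hlη i hi)
    (fun i hi _ z hz => by
      by_cases h1 : ¬ j < i ∨ z < ln q i
      · rw [Nq_old h1]
        refine hro q hq i hi z ?_
        rcases h1 with h1 | h1
        · rwa [hlold i hi h1] at hz
        · exact h1
      · push Not at h1
        rw [Nq_new h1.1 (not_lt.2 h1.2)]
        exact hNNreg i hi z)
    (fun i hi _ => hthinN i hi)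
  have hlq' : ∀ i < F.κ, ln q' i = lq j q A r i := fun i hi => (hq' i hi hi).1
  have hnq' : ∀ i < F.κ, ∀ z < lq j q A r i, nm q' i z = Nq F j q A r i z :=
    fun i hi => (hq' i hi hi).2
  have hEq : EqB J q' q := by
    intro i hi
    have hiκ := hi.trans hJκ
    have hji : ¬ j < i := not_lt.2 (Order.lt_succ_iff.1 hi)
    refine ⟨(hlq' i hiκ).trans (hlold i hiκ hji), fun z hz => ?_⟩
    rw [hlq' i hiκ] at hz
    rw [hnq' i hiκ z hz, Nq_old (Or.inl hji)]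
  refine ⟨q', hq'P, (hP1 _ _ _).2 fun i hi => ⟨?_, fun z hz s hs _ => ?_⟩, hEq, ?_, ?_⟩
  · rw [hlq' i hi]
    exact hlge i hi
  · rw [hnq' i hi z (lt_of_lt_of_le hz (hlge i hi)), Nq_old (Or.inr hz)]
  · intro i hi hji z hz1 hz2 s hs
    rw [hlq' i hi] at hz2
    rw [hnq' i hi z hz2, Nq_new hji (not_lt.2 hz1)] at hs
    refine ((hG1 i hi hji).2.2 s hs.1 fun s' hs' h1 => ?_).2
    obtain ⟨u, hu, h2, t, ht, h3, -, -⟩ := hs.2 s' hs' h1
    exact ⟨u, hu, h2, hu, hG2 t (hB3 J F.κ hJκ.le (hAP ht)) u (hPκ i hi hu) h3 (hAg t ht).1⟩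
  · intro t ht
    have hLetq' : F.Le J t q' := (hE1 J q' q t hEq).1.2 (hAg t ht).2
    obtain ⟨hm1, hm2, hm3, hm4, -, -, -, -⟩ := (hAMG F).1 J hJκ t (hAP ht) q' hq'P hLetq'
    set m := am t q' J with hm
    obtain ⟨-, hr2, -⟩ := hR1 (r t) (hrA t ht).1 J hJκ.le
    rw [(hrA t ht).2.2] at hr2
    have hmain : ∀ i, i ≤ F.κ → F.Le i m (r t) := by
      intro i
      induction i using WellFoundedLT.induction with
      | ind i ih =>
        intro hi
        rw [hP1]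
        intro k hk
        have hkκ : k < F.κ := lt_of_lt_of_le hk hi
        have hLk : F.Le k m (r t) := ih k hk hkκ.le
        rcases lt_or_ge k J with hkJ | hkJ
        · obtain ⟨e1, e2⟩ := hm2 k hkJ
          obtain ⟨e3, e4⟩ := hr2 k hkJ
          refine ⟨(e1.trans e3).ge, fun z hz s hs _ => ?_⟩
          rw [e2 z (by rw [e1, e3]; exact hz), e4 z (by rw [e3]; exact hz)]
        · have hjk : j < k := Order.succ_le_iff.1 hkJ
          obtain ⟨e1, e2⟩ := hm3 k hkJ hkκ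
          have e3 : ∀ z < ln (r t) k, z < lq j q A r k := fun z hz =>
            (hl k hkκ z).2 (Or.inr ⟨hjk, t, ht, hz⟩)
          refine ⟨?_, fun z hz s hs hsm => ?_⟩
          · rw [e1, hlq' k hkκ]
            by_contra hc
            exact lt_irrefl _ (e3 _ (not_le.1 hc))
          · rw [e2, hnq' k hkκ z (e3 z hz)]
            by_cases hzq : z < ln q k
            · rw [Nq_old (Or.inr hzq)]
              have h5 := (hP1 _ _ _).1 (hrA t ht).2.1 k hkκ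
              exact (h5.2 z hzq s hs (htr _ _ _ _ hsm hLk)).symm
            · rw [Nq_new hjk hzq]
              have h6 : F.Le J s t := (hE1 J m t s hm2).1.1 (hdn _ _ _ _ hkJ hsm)
              rw [hstar k hkκ hjk s hs t ht h6 z]
              exact ⟨fun h => h.2, fun h => ⟨hz, h⟩⟩
    exact hmain F.κ le_rfl

end Pool.Agent.Helper17.OD.PkMIX
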