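import Pool.Agent.Helper17.OD.GoalsFP

/-!
# OD: small tools (bounded suprema in the ground model)
-/

namespace Pool.Agent.Helper32.OD

open Set Pool.Agent.Helper17.OD

/-- Membership in a constructible set, as a relation. -/
def DecT (x p : T) : Prop := x ∈ dec p

/-- `s ∈ nm p i x` with tree arguments. -/
def NmT (p ti tx s : T) : Prop := DecT (.pr ti (.pr (.nat 1) (.pr tx s))) p

/-- `s ∈ P i` with tree arguments. -/
def PT (F : FD) (ti s : T) : Prop := ∃ j ≤ F.κ, ti = .ord j ∧ s ∈ F.P j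

/-- `Le i q p` with tree arguments. -/
def LeT (F : FD) (ti q p : T) : Prop := ∃ j ≤ F.κ, ti = .ord j ∧ q ∈ D (Iio F.κ) ∧
  p ∈ D (Iio F.κ) ∧ F.Le j q p

theorem som (F : FD) : SOM F.γ F.M F.M := F.g.m1

theorem D_in (F : FD) {d : O} (hd : d < F.γ) : D (Iio d) ∈ F.M := by
  have := som F
  have h := SOM.sep (k := F.γ) (S := F.M) (S' := F.M) (P := fun _ => True) SD.const hd
  convert h using 1
  ext x
  simp

theorem lt_sInf_iff (C : O → Prop) (hdc : ∀ a b, a ≤ b → C b → C a) (hex : ∃ a, ¬ C a) (a : O) :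
    a < sInf {a | ¬ C a} ↔ C a := by
  constructor
  · intro h
    by_contra hc
    exact absurd (csInf_le' (show a ∈ {a | ¬ C a} from hc)) (not_le.2 h)
  · intro h
    have h1 : sInf {a | ¬ C a} ∈ {a | ¬ C a} := csInf_mem hex
    by_contra hc
    exact h1 (hdc _ _ (not_lt.1 hc) h)

theorem ord_of_isOrd {t : T} (h : t.IsOrd) : ∃ a, t = .ord a := by
  cases t with
  | nat n => exact absurd h (by simp [Tr.IsOrd])
  | ord a => exact ⟨a, rfl⟩
  | pr s t => exact absurd h (by simp [Tr.IsOrd])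

/-- Bounded suprema of bounded sets of ordinals, uniformly. -/
theorem reg_bnd (F : FD) {μ : O} (hμ : MReg F.M μ) (hμk : μ ≤ F.κ) {A : Set T} (hA : A ∈ F.M)
    {d : O} (hd : d < μ) (hAd : A ⊆ D (Iio d)) (R : T → T → Prop)
    (hR : SD F.γ F.M F.M (fun e _ => R e.fst e.snd))
    (hb : ∀ t ∈ A, ∃ b < μ, ∀ a, R t (.ord a) → a < b) :
    ∃ b < μ, ∀ t ∈ A, ∀ a, R t (.ord a) → a < b := by
  classical
  have := som F
  have hκγ : F.κ < F.γ := F.g.kg
  set bd : T → O := fun t => sInf {b | ∀ a, R t (.ord a) → a < b} with hbd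
  set f : T → T := fun t => if t ∈ A then .ord (bd t) else .ord 0 with hf
  have hbd1 : ∀ t ∈ A, bd t < μ ∧ ∀ a, R t (.ord a) → a < bd t := by
    intro t ht
    obtain ⟨b, hb1, hb2⟩ := hb t ht
    refine ⟨lt_of_le_of_lt (csInf_le' (show b ∈ {b | ∀ a, R t (.ord a) → a < b} from hb2)) hb1, ?_⟩
    exact csInf_mem (s := {b | ∀ a, R t (.ord a) → a < b}) ⟨b, hb2⟩
  have hbd2 : ∀ t, ∀ b < bd t, ∃ a, R t (.ord a) ∧ ¬ a < b := by
    intro t b hb
    by_contra hc
    push Not at hc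
    exact absurd (csInf_le' (show b ∈ {b | ∀ a, R t (.ord a) → a < b} from hc)) (not_le.2 hb)
  have hf1 : ∀ x, (f x).IsOrd := by
    intro x
    rw [hf]
    dsimp only
    split_ifs
    · trivial
    · trivial
  have hf2 : ∀ x, f x ∈ D (Iio μ) := by
    intro x
    rw [hf]
    dsimp only
    split_ifs with hx
    · exact ord_mem.2 (hbd1 x hx).1
    · exact ord_mem.2 (lt_of_le_of_lt (zero_le) hd)
  have hDd := D_in F (lt_of_lt_of_le hd (hμk.trans hκγ.le))
  have hSD : SD F.γ F.M F.M (fun e _ => ∃ x ∈ D (Iio F.γ), ∃ y ∈ D (Iio F.γ),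
      e = .pr x y ∧ x ∈ D (Iio d) ∧ y.IsOrd ∧
      ((x ∈ A ∧ (∀ a ∈ D (Iio F.γ), a.IsOrd → R x a → a.llt y) ∧
        (∀ b ∈ D (Iio F.γ), b.IsOrd → b.llt y → ∃ a ∈ D (Iio F.γ), a.IsOrd ∧ R x a ∧ ¬ a.llt b)) ∨
      (¬ x ∈ A ∧ y = .ord 0))) := by
    have h0 : (0 : O) < F.γ := lt_of_le_of_lt (zero_le) hκγ
    apply_rules (maxDepth := 1000) [SD.exT, SD.allT, SD.exS, SD.allS, SD.isOrd, SD.llt, SD.mem, SD.eq, SD.not, SD.and,
      SD.or, SD.iff, SD.imp, ST.id, ST.fst, ST.snd, ST.pr, ST.nat, ST.ordc, SV.var, SV.par,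
      SD.app2]
  have hgr : gr (D (Iio d)) f ∈ F.M := by
    refine SOM.of_SD (k := F.γ) (S := F.M) (S' := F.M) (d := F.κ) hκγ ?_ (hSD.congr ?_)
    · rintro p ⟨x, hx, rfl⟩
      exact pr_mem.2 ⟨D_mono (Iio_subset_Iio (hd.le.trans hμk)) hx,
        D_mono (Iio_subset_Iio hμk) (hf2 x)⟩
    · intro e _ _ _
      constructor
      · rintro ⟨x, hx, y, hy, rfl, hxd, hyo, h1⟩
        obtain ⟨b, rfl⟩ := ord_of_isOrd hyo
        refine ⟨x, hxd, ?_⟩
        congr 1
        rcases h1 with ⟨hxA, h2, h3⟩ | ⟨hxA, h2⟩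
        · rw [hf]
          dsimp only
          rw [if_pos hxA]
          congr 1
          apply le_antisymm
          · by_contra hc
            rw [not_le] at hc
            obtain ⟨a, ha, hao, h4, h5⟩ := h3 (.ord (bd x))
              (ord_mem.2 (lt_of_lt_of_le (hbd1 x hxA).1 (hμk.trans hκγ.le))) trivial hc
            obtain ⟨a', rfl⟩ := ord_of_isOrd hao
            exact h5 ((hbd1 x hxA).2 a' h4)
          · refine csInf_le' (fun a ha => ?_)
            refine h2 (.ord a) (ord_mem.2 ?_) trivial ha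
            exact ((hbd1 x hxA).2 a ha).trans (lt_of_lt_of_le (hbd1 x hxA).1 (hμk.trans hκγ.le))
        · rw [hf]
          dsimp only
          rw [if_neg hxA, h2]
      · rintro ⟨x, hx, rfl⟩
        refine ⟨x, D_mono (Iio_subset_Iio ((hd.le.trans hμk).trans hκγ.le)) hx, f x,
          D_mono (Iio_subset_Iio (hμk.trans hκγ.le)) (hf2 x), rfl, hx, hf1 x, ?_⟩
        by_cases hxA : x ∈ A
        · left
          have hfx : f x = .ord (bd x) := by
            rw [hf]
            dsimp only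
            rw [if_pos hxA]
          rw [hfx]
          refine ⟨hxA, fun a _ hao ha => ?_, fun b hb hbo hlt => ?_⟩
          · obtain ⟨a', rfl⟩ := ord_of_isOrd hao
            exact (hbd1 x hxA).2 a' ha
          · obtain ⟨b', rfl⟩ := ord_of_isOrd hbo
            obtain ⟨a, h4, h5⟩ := hbd2 x b' hlt
            refine ⟨.ord a, ord_mem.2 ?_, trivial, h4, h5⟩
            exact ((hbd1 x hxA).2 a h4).trans
              (lt_of_lt_of_le (hbd1 x hxA).1 (hμk.trans hκγ.le))
        · right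
          refine ⟨hxA, ?_⟩
          rw [hf]
          dsimp only
          rw [if_neg hxA]
  obtain ⟨b, hb1, hb2⟩ := hμ d hd f (fun x _ => ⟨hf1 x, hf2 x⟩) hgr
  refine ⟨b, hb1, fun t ht a ha => ?_⟩
  have h1 := hb2 t (hAd ht)
  rw [hf] at h1
  dsimp only at h1
  rw [if_pos ht] at h1
  exact ((hbd1 t ht).2 a ha).trans (ord_mem.1 h1)

end Pool.Agent.Helper32.OD
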